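import Pool.Agent.H60.DR.Base

set_option autoImplicit false

open Filter Topology Set
open scoped InnerProductSpace ENNReal

namespace Pool.Agent.H18.DR

open Pool.Agent.W805.DW Pool.Agent.H60.DR

lemma evg_true (μ g : ℕ → ℝ) (n : ℕ) : evg μ g (n, true) = μ n + g n := by simp [evg]
lemma evg_false (μ g : ℕ → ℝ) (n : ℕ) : evg μ g (n, false) = μ n - g n := by simp [evg]

lemma key_bound (T : ℝ) (hT : 0 < T) :
    ∃ c : ℝ, 0 < c ∧ ∀ g : ℝ, 1 ≤ g → c ≤ T - |Real.sin (g * T)| / g := by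
  have h3 : Real.sin T < T := Real.sin_lt hT
  refine ⟨min (T / 2) (T * (T - Real.sin T) / 2), lt_min (by positivity) ?_, fun g hg => ?_⟩
  · have : 0 < T - Real.sin T := by linarith
    positivity
  · have hg0 : 0 < g := by linarith
    have hTg : T ≤ g * T := by nlinarith
    rcases le_or_gt 2 (g * T) with h | h
    · refine (min_le_left _ _).trans ?_
      have h1 : |Real.sin (g * T)| ≤ 1 := Real.abs_sin_le_one _
      have h2 : |Real.sin (g * T)| / g ≤ T / 2 := by
        rw [div_le_iff₀ hg0]; nlinarith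
      linarith
    · refine (min_le_right _ _).trans ?_
      have h0 : 0 < g * T := by positivity
      have h1 : 0 ≤ Real.sin (g * T) :=
        Real.sin_nonneg_of_nonneg_of_le_pi h0.le (by linarith [Real.pi_gt_three])
      rw [abs_of_nonneg h1]
      have h2 : Real.sin (g * T) - Real.sin T ≤ g * T - T := by
        have h4 := Real.lipschitzWith_sin.dist_le_mul (g * T) T
        rw [Real.dist_eq, Real.dist_eq, abs_of_nonneg (by linarith : 0 ≤ g * T - T)] at h4
        have h5 := le_abs_self (Real.sin (g * T) - Real.sin T)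
        simp only [NNReal.coe_one, one_mul] at h4
        linarith
      have h6 : Real.sin (g * T) / g ≤ T - T * (T - Real.sin T) / 2 := by
        rw [div_le_iff₀ hg0]
        have h7 : 0 ≤ (2 - g * T) * (T - Real.sin T) := mul_nonneg (by linarith) (by linarith)
        nlinarith
      linarith

lemma block_norm (θ : ℝ) (x y : ℂ) :
    ‖Complex.exp (-Complex.I * θ) * x + Complex.exp (Complex.I * θ) * y‖ ^ 2 =
      ‖x‖ ^ 2 + ‖y‖ ^ 2 + 2 * (Real.cos (2 * θ) * (starRingEnd ℂ x * y).re -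
        Real.sin (2 * θ) * (starRingEnd ℂ x * y).im) := by
  have h1 : Complex.exp (-Complex.I * θ) = ⟨Real.cos θ, -Real.sin θ⟩ := by
    have := Complex.exp_mul_I (-(θ : ℂ))
    rw [show -Complex.I * (θ : ℂ) = -(θ : ℂ) * Complex.I by ring, this, Complex.cos_neg,
      Complex.sin_neg, ← Complex.ofReal_cos, ← Complex.ofReal_sin]
    apply Complex.ext <;> simp [-Complex.ofReal_cos, -Complex.ofReal_sin]
  have h2 : Complex.exp (Complex.I * θ) = ⟨Real.cos θ, Real.sin θ⟩ := by
    have := Complex.exp_mul_I ((θ : ℂ))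
    rw [show Complex.I * (θ : ℂ) = (θ : ℂ) * Complex.I by ring, this,
      ← Complex.ofReal_cos, ← Complex.ofReal_sin]
    apply Complex.ext <;> simp [-Complex.ofReal_cos, -Complex.ofReal_sin]
  rw [h1, h2, Complex.sq_norm, Complex.sq_norm, Complex.sq_norm, Complex.normSq_apply,
    Complex.normSq_apply, Complex.normSq_apply, Real.cos_two_mul, Real.sin_two_mul]
  simp only [Complex.add_re, Complex.add_im, Complex.mul_re, Complex.mul_im, Complex.conj_re,
    Complex.conj_im]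
  have h3 := Real.sin_sq_add_cos_sq θ
  set c := Real.cos θ
  set s := Real.sin θ
  linear_combination (x.re ^ 2 + x.im ^ 2 + y.re ^ 2 + y.im ^ 2 - 2 * (x.re * y.re + x.im * y.im)) * h3

lemma coord_norm (μ g : ℕ → ℝ) (T : ℝ) (u : ℝ → L2 (ℕ × Bool))
    (hu : IsSchrodingerSol (Ag μ g) T u) (t : ℝ) (ht : t ∈ Icc 0 T) (n : ℕ) :
    ‖(G (u t) : L2 ℕ) n‖ ^ 2 = (1 / 2) * (‖(u 0) (n, true)‖ ^ 2 + ‖(u 0) (n, false)‖ ^ 2 +
      2 * (Real.cos (2 * (g n * t)) * (starRingEnd ℂ ((u 0) (n, true)) * (u 0) (n, false)).re -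
        Real.sin (2 * (g n * t)) * (starRingEnd ℂ ((u 0) (n, true)) * (u 0) (n, false)).im)) := by
  have e1 : (G (u t) : L2 ℕ) n = Complex.exp (-Complex.I * μ n * t) *
      ((((Real.sqrt 2)⁻¹ : ℝ) : ℂ) * (Complex.exp (-Complex.I * ((g n * t : ℝ) : ℂ)) * (u 0) (n, true) +
        Complex.exp (Complex.I * ((g n * t : ℝ) : ℂ)) * (u 0) (n, false))) := by
    rw [G_apply, coord_sol _ T u hu _ t ht, coord_sol _ T u hu _ t ht, evg_true, evg_false]
    have e2 : Complex.exp (-Complex.I * ((μ n + g n : ℝ) : ℂ) * t) =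
        Complex.exp (-Complex.I * μ n * t) * Complex.exp (-Complex.I * ((g n * t : ℝ) : ℂ)) := by
      rw [← Complex.exp_add]; congr 1; push_cast; ring
    have e3 : Complex.exp (-Complex.I * ((μ n - g n : ℝ) : ℂ) * t) =
        Complex.exp (-Complex.I * μ n * t) * Complex.exp (Complex.I * ((g n * t : ℝ) : ℂ)) := by
      rw [← Complex.exp_add]; congr 1; push_cast; ring
    rw [e2, e3]; ring
  have hn : ‖Complex.exp (-Complex.I * μ n * t)‖ = 1 := by
    rw [Complex.norm_exp]; simp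
  rw [e1, norm_mul, hn, one_mul, norm_mul, mul_pow, block_norm, Complex.norm_real,
    Real.norm_eq_abs, sq_abs, inv_pow, Real.sq_sqrt (by norm_num)]
  ring

lemma int_bound (T : ℝ) (hT : 0 < T) (g : ℝ) (hg : 0 < g) (x y : ℂ) :
    (1 / 2) * (T - |Real.sin (g * T)| / g) * (‖x‖ ^ 2 + ‖y‖ ^ 2) ≤
    ∫ t in (0 : ℝ)..T, (1 / 2) * (‖x‖ ^ 2 + ‖y‖ ^ 2 +
      2 * (Real.cos (2 * (g * t)) * (starRingEnd ℂ x * y).re -
        Real.sin (2 * (g * t)) * (starRingEnd ℂ x * y).im)) := by
  have hxy : (starRingEnd ℂ x * y).re ^ 2 + (starRingEnd ℂ x * y).im ^ 2 =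
      ‖x‖ ^ 2 * ‖y‖ ^ 2 := by
    have h1 : ‖starRingEnd ℂ x * y‖ ^ 2 = ‖x‖ ^ 2 * ‖y‖ ^ 2 := by
      rw [norm_mul, RCLike.norm_conj]; ring
    rw [← h1, Complex.sq_norm, Complex.normSq_apply]; ring
  set c := (starRingEnd ℂ x * y).re
  set s := (starRingEnd ℂ x * y).im
  set S := ‖x‖ ^ 2 + ‖y‖ ^ 2 with hS
  have hder : ∀ t ∈ uIcc 0 T, HasDerivAt (fun t : ℝ => (1 / 2) * (S * t +
      (Real.sin (2 * (g * t)) * c + Real.cos (2 * (g * t)) * s) / g)) ((1 / 2) * (S +
      2 * (Real.cos (2 * (g * t)) * c - Real.sin (2 * (g * t)) * s))) t := by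
    intro t _
    have a1 : HasDerivAt (fun t : ℝ => 2 * (g * t)) (2 * (g * 1)) t :=
      ((hasDerivAt_id t).const_mul g).const_mul 2
    have a2 := a1.sin
    have a3 := a1.cos
    have a4 := (((hasDerivAt_id t).const_mul S).add (((a2.mul_const c).add
      (a3.mul_const s)).div_const g)).const_mul (1 / 2)
    refine a4.congr_deriv ?_
    field_simp
    ring
  rw [intervalIntegral.integral_eq_sub_of_hasDerivAt hder]
  · have hz1 : Real.sin (2 * (g * 0)) = 0 := by simp
    have hz2 : Real.cos (2 * (g * 0)) = 1 := by simp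
    rw [hz1, hz2, Real.cos_two_mul, Real.sin_two_mul]
    have h3 := Real.sin_sq_add_cos_sq (g * T)
    set C := Real.cos (g * T)
    set Z := Real.sin (g * T)
    have h4 : |C * c - Z * s| ≤ S / 2 := by
      apply abs_le_of_sq_le_sq _ (by positivity)
      have h5 : (C * c - Z * s) ^ 2 ≤ (Z ^ 2 + C ^ 2) * (c ^ 2 + s ^ 2) := by
        nlinarith [sq_nonneg (C * s + Z * c)]
      rw [h3, hxy, one_mul] at h5
      nlinarith [sq_nonneg (‖x‖ ^ 2 - ‖y‖ ^ 2)]
    have h6 : |Z * (C * c - Z * s)| ≤ |Z| * (S / 2) := by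
      rw [abs_mul]
      exact mul_le_mul_of_nonneg_left h4 (abs_nonneg _)
    have h7 := (abs_le.mp h6).1
    have h8 : (1 / 2) * (S * T + (2 * Z * C * c + (2 * C ^ 2 - 1) * s) / g) -
        (1 / 2) * (S * 0 + (0 * c + 1 * s) / g) =
        (1 / 2) * (T * S + 2 * (Z * (C * c - Z * s)) / g) := by
      have : C ^ 2 = 1 - Z ^ 2 := by linarith
      rw [this]
      field_simp
      ring
    rw [h8]
    have h9 : -(|Z| * S) / g ≤ 2 * (Z * (C * c - Z * s)) / g := by
      apply div_le_div_of_nonneg_right _ hg.le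
      linarith
    have h10 : (1 / 2) * (T - |Z| / g) * S = (1 / 2) * (T * S + -(|Z| * S) / g) := by
      ring
    rw [h10]
    linarith
  · apply Continuous.intervalIntegrable
    fun_prop

theorem stObs : StObs := by
  intro μ g hg T hT
  obtain ⟨c, hc, hcb⟩ := key_bound T hT
  refine ⟨2 / c, by positivity, fun u hu => ?_⟩
  rw [adjB]
  have hcont : ContinuousOn (fun t => ‖G (u t)‖ ^ 2) (uIcc 0 T) := by
    rw [uIcc_of_le hT.le]
    exact ((G.continuous.comp_continuousOn hu.1).norm).pow 2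
  have hint : IntervalIntegrable (fun t => ‖G (u t)‖ ^ 2) MeasureTheory.volume 0 T :=
    hcont.intervalIntegrable
  set I := ∫ t in (0 : ℝ)..T, ‖G (u t)‖ ^ 2 with hI
  have hfin : ∀ F : Finset ℕ, ∑ n ∈ F, (‖(u 0) (n, true)‖ ^ 2 + ‖(u 0) (n, false)‖ ^ 2) ≤
      2 / c * I := by
    intro F
    have h1 : ∀ n ∈ F, (c / 2) * (‖(u 0) (n, true)‖ ^ 2 + ‖(u 0) (n, false)‖ ^ 2) ≤
        ∫ t in (0 : ℝ)..T, (1 / 2) * (‖(u 0) (n, true)‖ ^ 2 + ‖(u 0) (n, false)‖ ^ 2 +
      2 * (Real.cos (2 * (g n * t)) * (starRingEnd ℂ ((u 0) (n, true)) * (u 0) (n, false)).re -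
        Real.sin (2 * (g n * t)) * (starRingEnd ℂ ((u 0) (n, true)) * (u 0) (n, false)).im)) := by
      intro n _
      refine le_trans ?_ (int_bound T hT (g n) (by linarith [hg n]) _ _)
      have := hcb (g n) (hg n)
      have h2 : 0 ≤ ‖(u 0) (n, true)‖ ^ 2 + ‖(u 0) (n, false)‖ ^ 2 := by positivity
      nlinarith
    have h2 := Finset.sum_le_sum h1
    rw [← Finset.mul_sum, ← intervalIntegral.integral_finsetSum] at h2
    · have h3 : (∫ t in (0 : ℝ)..T, ∑ n ∈ F, (1 / 2) * (‖(u 0) (n, true)‖ ^ 2 +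
          ‖(u 0) (n, false)‖ ^ 2 +
          2 * (Real.cos (2 * (g n * t)) * (starRingEnd ℂ ((u 0) (n, true)) * (u 0) (n, false)).re -
          Real.sin (2 * (g n * t)) * (starRingEnd ℂ ((u 0) (n, true)) * (u 0) (n, false)).im))) ≤ I := by
        rw [hI]
        apply intervalIntegral.integral_mono_on hT.le _ hint
        · intro t ht
          have h4 : ∀ n ∈ F, (1 / 2) * (‖(u 0) (n, true)‖ ^ 2 + ‖(u 0) (n, false)‖ ^ 2 +
            2 * (Real.cos (2 * (g n * t)) * (starRingEnd ℂ ((u 0) (n, true)) * (u 0) (n, false)).re -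
            Real.sin (2 * (g n * t)) * (starRingEnd ℂ ((u 0) (n, true)) * (u 0) (n, false)).im)) =
            ‖(G (u t) : L2 ℕ) n‖ ^ 2 := fun n _ => (coord_norm μ g T u hu t ht n).symm
          rw [Finset.sum_congr rfl h4, norm_sq (G (u t))]
          exact (summable_sq (G (u t))).sum_le_tsum F (fun n _ => by positivity)
        · apply Continuous.intervalIntegrable
          fun_prop
      have h4 := h2.trans h3
      rw [div_mul_eq_mul_div, le_div_iff₀ hc]
      linarith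
    · intro n _
      apply Continuous.intervalIntegrable
      fun_prop
  have hs : ‖u 0‖ ^ 2 = ∑' n, (‖(u 0) (n, true)‖ ^ 2 + ‖(u 0) (n, false)‖ ^ 2) := by
    rw [norm_sq_split, norm_sq, norm_sq, ← Summable.tsum_add]
    · rfl
    · exact summable_sq _
    · exact summable_sq _
  rw [hs]
  have hpos : ∀ n, 0 ≤ ‖(u 0) (n, true)‖ ^ 2 + ‖(u 0) (n, false)‖ ^ 2 := fun n => by positivity
  exact Real.tsum_le_of_sum_le hpos hfin

end Pool.Agent.H18.DR
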