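import Pool.Agent.H18.DR.Obs
import Pool.Agent.H60.DR.Base2

set_option autoImplicit false

open Filter Topology Set MeasureTheory
open scoped InnerProductSpace ENNReal

namespace Pool.Agent.H18.DR

open Pool.Agent.W805.DW Pool.Agent.H60.DR

/-- the set of times at which `sin (g t - ψ)` is small is small, uniformly in `g ≥ 1` -/
lemma small_measure {T g s : ℝ} (hT : 0 ≤ T) (hg : 1 ≤ g) (hs : 0 < s) (ψ : ℝ) :
    volume {t : ℝ | t ∈ Icc 0 T ∧ |Real.sin (g * t - ψ)| < s} ≤
      ENNReal.ofReal (s * (T + 2 * Real.pi)) := by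
  have hpi := Real.pi_pos
  have hg0 : 0 < g := by linarith
  set k0 := ⌊-ψ / Real.pi + 1 / 2⌋ with hk0
  set k1 := ⌊(g * T - ψ) / Real.pi + 1 / 2⌋ with hk1
  have hsub : {t : ℝ | t ∈ Icc 0 T ∧ |Real.sin (g * t - ψ)| < s} ⊆
      ⋃ k ∈ Finset.Icc k0 k1, Icc ((ψ + k * Real.pi) / g - Real.pi * s / (2 * g))
        ((ψ + k * Real.pi) / g + Real.pi * s / (2 * g)) := by
    rintro t ⟨ht, hts⟩
    set x := g * t - ψ with hx
    set k := ⌊x / Real.pi + 1 / 2⌋ with hk
    have e1 := Int.floor_le (x / Real.pi + 1 / 2)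
    have e2 := Int.lt_floor_add_one (x / Real.pi + 1 / 2)
    rw [← hk] at e1 e2
    have e3 : x / Real.pi * Real.pi = x := by field_simp
    have hk' : |x - k * Real.pi| ≤ Real.pi / 2 := by
      rw [abs_le]
      constructor <;> nlinarith
    have hsin : |Real.sin (x - k * Real.pi)| = |Real.sin x| := by
      rw [Real.sin_sub_int_mul_pi, abs_mul]
      simp
    have h1 := Real.mul_abs_le_abs_sin hk'
    rw [hsin] at h1
    have h2 : |x - k * Real.pi| ≤ Real.pi / 2 * s := by
      have h3 : 2 / Real.pi * |x - k * Real.pi| ≤ s := by linarith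
      have h4 : Real.pi / 2 * (2 / Real.pi * |x - k * Real.pi|) = |x - k * Real.pi| := by
        field_simp
      rw [← h4]
      exact mul_le_mul_of_nonneg_left h3 (by positivity)
    have h5 := abs_le.mp h2
    rw [Set.mem_iUnion₂]
    refine ⟨k, ?_, ?_⟩
    · rw [Finset.mem_Icc]
      constructor
      · apply Int.floor_mono
        have : -ψ ≤ x := by have := mul_nonneg hg0.le ht.1; linarith
        have := div_le_div_of_nonneg_right this hpi.le
        linarith
      · apply Int.floor_mono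
        have : x ≤ g * T - ψ := by have := mul_le_mul_of_nonneg_left ht.2 hg0.le; linarith
        have := div_le_div_of_nonneg_right this hpi.le
        linarith
    · have e4 : t = (x + ψ) / g := by rw [hx]; field_simp; ring
      rw [Set.mem_Icc, e4]
      have e5 : (ψ + k * Real.pi) / g - Real.pi * s / (2 * g) =
          (ψ + k * Real.pi - Real.pi / 2 * s) / g := by field_simp
      have e6 : (ψ + k * Real.pi) / g + Real.pi * s / (2 * g) =
          (ψ + k * Real.pi + Real.pi / 2 * s) / g := by field_simp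
      rw [e5, e6]
      constructor
      · exact div_le_div_of_nonneg_right (by linarith) hg0.le
      · exact div_le_div_of_nonneg_right (by linarith) hg0.le
  refine (measure_mono hsub).trans ((measure_biUnion_finset_le _ _).trans ?_)
  have hcard : ((Finset.Icc k0 k1).card : ℝ) ≤ g * T / Real.pi + 2 := by
    rw [Int.card_Icc]
    have e1 := Int.floor_le ((g * T - ψ) / Real.pi + 1 / 2)
    have e2 := Int.lt_floor_add_one (-ψ / Real.pi + 1 / 2)
    rw [← hk1] at e1
    rw [← hk0] at e2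
    have e3 : (g * T - ψ) / Real.pi = g * T / Real.pi + -ψ / Real.pi := by ring
    have h0 : (0 : ℝ) ≤ g * T / Real.pi := by positivity
    have h1 : ((k1 + 1 - k0 : ℤ) : ℝ) ≤ g * T / Real.pi + 2 := by
      push_cast
      linarith
    rcases le_or_gt 0 (k1 + 1 - k0) with h2 | h2
    · have h3 : (((k1 + 1 - k0).toNat : ℤ) : ℝ) = ((k1 + 1 - k0 : ℤ) : ℝ) := by
        rw [Int.toNat_of_nonneg h2]
      have h4 : (((k1 + 1 - k0).toNat : ℕ) : ℝ) = (((k1 + 1 - k0).toNat : ℤ) : ℝ) :=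
        (Int.cast_natCast _).symm
      rw [h4, h3]
      exact h1
    · rw [Int.toNat_of_nonpos h2.le]
      simp
      linarith
  have hvol : ∀ k ∈ Finset.Icc k0 k1, volume (Icc ((ψ + k * Real.pi) / g - Real.pi * s / (2 * g))
        ((ψ + k * Real.pi) / g + Real.pi * s / (2 * g))) = ENNReal.ofReal (Real.pi * s / g) := by
    intro k _
    rw [Real.volume_Icc]
    congr 1
    field_simp
    ring
  rw [Finset.sum_congr rfl hvol, Finset.sum_const, nsmul_eq_mul, ← ENNReal.ofReal_natCast,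
    ← ENNReal.ofReal_mul (by positivity)]
  apply ENNReal.ofReal_le_ofReal
  have h1 : ((Finset.Icc k0 k1).card : ℝ) * (Real.pi * s / g) ≤
      (g * T / Real.pi + 2) * (Real.pi * s / g) :=
    mul_le_mul_of_nonneg_right hcard (by positivity)
  refine h1.trans ?_
  have h2 : (g * T / Real.pi + 2) * (Real.pi * s / g) = s * (T + 2 * Real.pi / g) := by
    field_simp
  rw [h2]
  apply mul_le_mul_of_nonneg_left _ hs.le
  have h3 : 2 * Real.pi / g ≤ 2 * Real.pi := div_le_self (by positivity) hg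
  linarith

/-- `∫_E sin² (g t - ψ)` is bounded below, uniformly in `g ≥ 1` and `ψ` -/
lemma sin_lower {T : ℝ} {E : Set ℝ} (hE : MeasurableSet E) (hET : E ⊆ Icc 0 T)
    (hpos : 0 < volume E) : ∃ c : ℝ, 0 < c ∧ ∀ g : ℝ, 1 ≤ g → ∀ ψ : ℝ,
      c ≤ ∫ t in E, Real.sin (g * t - ψ) ^ 2 := by
  have hfin : volume E ≠ ∞ := ((measure_mono hET).trans_lt (by simp)).ne
  have hm : 0 < volume.real E := ENNReal.toReal_pos hpos.ne' hfin
  have hT : 0 ≤ T := by
    by_contra h
    rw [Icc_eq_empty (by linarith)] at hET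
    have : E = ∅ := Set.subset_eq_empty hET rfl
    rw [this] at hpos
    simp at hpos
  have hpi := Real.pi_pos
  set m := volume.real E with hmdef
  set s := m / (2 * (T + 2 * Real.pi)) with hs
  have hs0 : 0 < s := by positivity
  refine ⟨s ^ 2 * (m / 2), by positivity, fun g hg ψ => ?_⟩
  set A : Set ℝ := {t : ℝ | t ∈ Icc 0 T ∧ |Real.sin (g * t - ψ)| < s} with hA
  have hAm : MeasurableSet A := by
    have hAe : A = Icc 0 T ∩ {t : ℝ | |Real.sin (g * t - ψ)| < s} := rfl
    rw [hAe]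
    exact measurableSet_Icc.inter (isOpen_lt
      (by fun_prop : Continuous fun t : ℝ => |Real.sin (g * t - ψ)|) continuous_const).measurableSet
  have hAfin : volume A ≠ ∞ := ((measure_mono (fun t ht => ht.1 : A ⊆ Icc 0 T)).trans_lt
    (by simp)).ne
  have h1 : volume.real A ≤ m / 2 := by
    have h2 := small_measure hT hg hs0 ψ
    have h3 : s * (T + 2 * Real.pi) = m / 2 := by
      rw [hs]; field_simp
    rw [h3] at h2
    have h4 := ENNReal.toReal_mono ENNReal.ofReal_ne_top h2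
    rw [ENNReal.toReal_ofReal (by positivity)] at h4
    exact h4
  have h2 : m / 2 ≤ volume.real (E \ A) := by
    have h3 : m ≤ volume.real (E \ A) + volume.real A := by
      calc m ≤ volume.real ((E \ A) ∪ A) := by
            apply measureReal_mono
            · intro t ht
              by_cases h : t ∈ A
              · right; exact h
              · left; exact ⟨ht, h⟩
            · exact (measure_union_lt_top ((measure_mono sdiff_subset).trans_lt hfin.lt_top)
                hAfin.lt_top).ne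
        _ ≤ _ := measureReal_union_le _ _
    linarith
  have hint : IntegrableOn (fun t : ℝ => Real.sin (g * t - ψ) ^ 2) E volume :=
    (Continuous.integrableOn_Icc (by fun_prop)).mono_set hET
  have h3 : s ^ 2 * volume.real (E \ A) ≤ ∫ t in E \ A, Real.sin (g * t - ψ) ^ 2 := by
    apply setIntegral_ge_of_const_le_real (hE.diff hAm)
    · exact ((measure_mono sdiff_subset).trans_lt hfin.lt_top).ne
    · rintro t ⟨ht, htA⟩
      have : s ≤ |Real.sin (g * t - ψ)| := by
        by_contra hcon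
        exact htA ⟨hET ht, not_le.mp hcon⟩
      rw [← sq_abs (Real.sin (g * t - ψ))]
      exact pow_le_pow_left₀ hs0.le this 2
    · exact hint.mono_set sdiff_subset
  have h4 : ∫ t in E \ A, Real.sin (g * t - ψ) ^ 2 ≤ ∫ t in E, Real.sin (g * t - ψ) ^ 2 := by
    apply setIntegral_mono_set hint
    · exact Filter.Eventually.of_forall fun t => by positivity
    · exact (sdiff_subset : E \ A ⊆ E).eventuallyLE
  have h5 : s ^ 2 * (m / 2) ≤ s ^ 2 * volume.real (E \ A) :=
    mul_le_mul_of_nonneg_left h2 (by positivity)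
  linarith

/-- the integrand of the block, bounded below by `sin²` -/
lemma block_lower (g : ℝ) (x y : ℂ) : ∃ ψ : ℝ, ∀ t : ℝ,
    (‖x‖ ^ 2 + ‖y‖ ^ 2) / 2 * Real.sin (g * t - ψ) ^ 2 ≤
    (1 / 2) * (‖x‖ ^ 2 + ‖y‖ ^ 2 +
      2 * (Real.cos (2 * (g * t)) * (starRingEnd ℂ x * y).re -
        Real.sin (2 * (g * t)) * (starRingEnd ℂ x * y).im)) := by
  set z := starRingEnd ℂ x * y with hz
  have h1 : ‖z‖ ≤ (‖x‖ ^ 2 + ‖y‖ ^ 2) / 2 := by
    rw [hz, norm_mul, RCLike.norm_conj]
    nlinarith [sq_nonneg (‖x‖ - ‖y‖)]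
  have hre : ‖z‖ * Real.cos (Complex.arg z) = z.re := Complex.norm_mul_cos_arg z
  have him : ‖z‖ * Real.sin (Complex.arg z) = z.im := Complex.norm_mul_sin_arg z
  refine ⟨-(Complex.arg z) / 2 - Real.pi / 2, fun t => ?_⟩
  set θ := Complex.arg z
  have h2 : Real.sin (g * t - (-θ / 2 - Real.pi / 2)) = Real.cos (g * t + θ / 2) := by
    rw [show g * t - (-θ / 2 - Real.pi / 2) = (g * t + θ / 2) + Real.pi / 2 by ring,
      Real.sin_add_pi_div_two]
  have h3 : Real.cos (2 * (g * t)) * z.re - Real.sin (2 * (g * t)) * z.im =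
      ‖z‖ * (2 * Real.cos (g * t + θ / 2) ^ 2 - 1) := by
    rw [← Real.cos_two_mul, show 2 * (g * t + θ / 2) = 2 * (g * t) + θ by ring, Real.cos_add,
      ← hre, ← him]
    ring
  rw [h2, h3]
  set C := Real.cos (g * t + θ / 2)
  have h4 : C ^ 2 ≤ 1 := Real.cos_sq_le_one _
  have h5 : 0 ≤ C ^ 2 := sq_nonneg _
  have h6 : 0 ≤ ‖z‖ := norm_nonneg _
  nlinarith [mul_nonneg (by linarith : 0 ≤ (‖x‖ ^ 2 + ‖y‖ ^ 2) / 2 - ‖z‖)
    (by linarith : 0 ≤ 1 - C ^ 2), mul_nonneg h6 h5]

/-- from the blocks to the system -/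
lemma assemble (μ g : ℕ → ℝ) {T : ℝ} {E : Set ℝ} (hE : MeasurableSet E) (hET : E ⊆ Icc 0 T)
    {c : ℝ} (hc : 0 < c) (hb : ∀ n, ∀ x y : ℂ, c / 2 * (‖x‖ ^ 2 + ‖y‖ ^ 2) ≤
      ∫ t in E, (1 / 2) * (‖x‖ ^ 2 + ‖y‖ ^ 2 +
      2 * (Real.cos (2 * (g n * t)) * (starRingEnd ℂ x * y).re -
        Real.sin (2 * (g n * t)) * (starRingEnd ℂ x * y).im))) :
    ObsOn (Ag μ g) B T E (2 / c) := by
  intro u hu
  rw [adjB]
  have hcont : ContinuousOn (fun t => ‖G (u t)‖ ^ 2) (Icc 0 T) :=
    ((G.continuous.comp_continuousOn hu.1).norm).pow 2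
  have hint : IntegrableOn (fun t => ‖G (u t)‖ ^ 2) E volume :=
    (hcont.integrableOn_Icc).mono_set hET
  set I := ∫ t in E, ‖G (u t)‖ ^ 2 with hI
  have hi : ∀ n, IntegrableOn (fun t => (1 / 2) * (‖(u 0) (n, true)‖ ^ 2 +
      ‖(u 0) (n, false)‖ ^ 2 +
      2 * (Real.cos (2 * (g n * t)) * (starRingEnd ℂ ((u 0) (n, true)) * (u 0) (n, false)).re -
        Real.sin (2 * (g n * t)) * (starRingEnd ℂ ((u 0) (n, true)) * (u 0) (n, false)).im))) E
        volume := fun n => (Continuous.integrableOn_Icc (by fun_prop)).mono_set hET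
  have hfin : ∀ F : Finset ℕ, ∑ n ∈ F, (‖(u 0) (n, true)‖ ^ 2 + ‖(u 0) (n, false)‖ ^ 2) ≤
      2 / c * I := by
    intro F
    have h2 := Finset.sum_le_sum fun n (_ : n ∈ F) => hb n ((u 0) (n, true)) ((u 0) (n, false))
    rw [← Finset.mul_sum, ← integral_finsetSum _ fun n _ => hi n] at h2
    have h3 : (∫ t in E, ∑ n ∈ F, (1 / 2) * (‖(u 0) (n, true)‖ ^ 2 +
          ‖(u 0) (n, false)‖ ^ 2 +
          2 * (Real.cos (2 * (g n * t)) * (starRingEnd ℂ ((u 0) (n, true)) * (u 0) (n, false)).re -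
          Real.sin (2 * (g n * t)) * (starRingEnd ℂ ((u 0) (n, true)) * (u 0) (n, false)).im))) ≤ I := by
      rw [hI]
      apply setIntegral_mono_on _ hint hE
      · intro t ht
        have h4 : ∀ n ∈ F, (1 / 2) * (‖(u 0) (n, true)‖ ^ 2 + ‖(u 0) (n, false)‖ ^ 2 +
          2 * (Real.cos (2 * (g n * t)) * (starRingEnd ℂ ((u 0) (n, true)) * (u 0) (n, false)).re -
          Real.sin (2 * (g n * t)) * (starRingEnd ℂ ((u 0) (n, true)) * (u 0) (n, false)).im)) =
          ‖(G (u t) : L2 ℕ) n‖ ^ 2 := fun n _ => (coord_norm μ g T u hu t (hET ht) n).symm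
        rw [Finset.sum_congr rfl h4, norm_sq (G (u t))]
        exact (summable_sq (G (u t))).sum_le_tsum F (fun n _ => by positivity)
      · exact integrable_finsetSum _ fun n _ => hi n
    have h4 := h2.trans h3
    rw [div_mul_eq_mul_div, le_div_iff₀ hc]
    linarith
  have hs : ‖u 0‖ ^ 2 = ∑' n, (‖(u 0) (n, true)‖ ^ 2 + ‖(u 0) (n, false)‖ ^ 2) := by
    rw [norm_sq_split, norm_sq, norm_sq, ← Summable.tsum_add]
    · rfl
    · exact summable_sq _
    · exact summable_sq _
  rw [hs]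
  have hpos : ∀ n, 0 ≤ ‖(u 0) (n, true)‖ ^ 2 + ‖(u 0) (n, false)‖ ^ 2 := fun n => by positivity
  exact Real.tsum_le_of_sum_le hpos hfin

/-- the gap for short intervals -/
lemma short_gap {T g : ℝ} (hT : 0 < T) (hT1 : T ≤ 1) (hg : 1 ≤ g) :
    T ^ 3 / 50 ≤ T - |Real.sin (g * T)| / g := by
  have hg0 : 0 < g := by linarith
  have hTg : T ≤ g * T := by nlinarith
  have hT3 : T ^ 3 ≤ T := by
    have : T ^ 3 ≤ T ^ 1 := pow_le_pow_of_le_one hT.le hT1 (by norm_num)
    simpa using this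
  -- `sin x ≤ x - (11/96) x³` on `(0, 1]`
  have hsin : ∀ x : ℝ, 0 < x → x ≤ 1 → Real.sin x ≤ x - 11 / 96 * x ^ 3 := by
    intro x h0 h1
    have hb := Real.sin_bound (x := x) (by rw [abs_of_pos h0]; exact h1)
    rw [abs_of_pos h0] at hb
    have hb2 := (abs_le.1 hb).2
    have hT4 : x ^ 4 ≤ x ^ 3 := pow_le_pow_of_le_one h0.le h1 (by norm_num)
    have hx3 : 0 < x ^ 3 := by positivity
    nlinarith
  suffices h : |Real.sin (g * T)| ≤ g * T - g * (T ^ 3 / 50) by
    have h1 : |Real.sin (g * T)| / g ≤ T - T ^ 3 / 50 := by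
      rw [div_le_iff₀ hg0]
      linarith
    linarith
  set θ := g * T with hθ
  have hθ0 : 0 < θ := by positivity
  have hT2 : T ^ 2 ≤ 1 := by nlinarith
  have hgT : g * (T ^ 3 / 50) = θ * (T ^ 2 / 50) := by rw [hθ]; ring
  rw [hgT]
  rcases le_or_gt θ 1 with h1 | h1
  · have h2 : 0 ≤ Real.sin θ := Real.sin_nonneg_of_nonneg_of_le_pi hθ0.le
      (by linarith [Real.pi_gt_three])
    rw [abs_of_nonneg h2]
    have h3 := hsin θ hθ0 h1
    have h4 : T ^ 2 ≤ θ ^ 2 := by nlinarith
    nlinarith [mul_le_mul_of_nonneg_left h4 hθ0.le]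
  · have h5 : θ * (T ^ 2 / 50) ≤ θ / 50 := by nlinarith
    rcases le_or_gt θ 2 with h2 | h2
    · have h3 : 0 ≤ Real.sin θ := Real.sin_nonneg_of_nonneg_of_le_pi hθ0.le
        (by linarith [Real.pi_gt_three])
      rw [abs_of_nonneg h3]
      have h4 := Real.lipschitzWith_sin.dist_le_mul θ 1
      rw [Real.dist_eq, Real.dist_eq, abs_of_nonneg (by linarith : 0 ≤ θ - 1)] at h4
      have h6 := le_abs_self (Real.sin θ - Real.sin 1)
      simp only [NNReal.coe_one, one_mul] at h4
      have h7 := hsin 1 one_pos le_rfl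
      linarith
    · have h3 := Real.abs_sin_le_one θ
      linarith

theorem stObs2 : StObs2 := by
  intro μ g hg
  refine ⟨fun T E hE hET hpos => ?_, fun T hT hT1 => ?_⟩
  · obtain ⟨c, hc, hcb⟩ := sin_lower hE hET hpos
    refine ⟨2 / c, by positivity, assemble μ g hE hET hc fun n x y => ?_⟩
    obtain ⟨ψ, hψ⟩ := block_lower (g n) x y
    have h1 := hcb (g n) (hg n) ψ
    have hP : 0 ≤ (‖x‖ ^ 2 + ‖y‖ ^ 2) / 2 := by positivity
    calc c / 2 * (‖x‖ ^ 2 + ‖y‖ ^ 2) = (‖x‖ ^ 2 + ‖y‖ ^ 2) / 2 * c := by ring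
      _ ≤ (‖x‖ ^ 2 + ‖y‖ ^ 2) / 2 * ∫ t in E, Real.sin (g n * t - ψ) ^ 2 :=
        mul_le_mul_of_nonneg_left h1 hP
      _ = ∫ t in E, (‖x‖ ^ 2 + ‖y‖ ^ 2) / 2 * Real.sin (g n * t - ψ) ^ 2 := by
        rw [integral_const_mul]
      _ ≤ _ := by
        apply setIntegral_mono_on _ _ hE fun t _ => hψ t
        · exact (Continuous.integrableOn_Icc (by fun_prop)).mono_set hET
        · exact (Continuous.integrableOn_Icc (by fun_prop)).mono_set hET
  · have h1 := assemble μ g (T := T) (E := Ioc 0 T) measurableSet_Ioc Ioc_subset_Icc_self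
      (c := T ^ 3 / 100) (by positivity) fun n x y => by
        have h2 := int_bound T hT (g n) (by linarith [hg n]) x y
        rw [intervalIntegral.integral_of_le hT.le] at h2
        refine le_trans ?_ h2
        have h3 := short_gap hT hT1 (hg n)
        have h4 : 0 ≤ ‖x‖ ^ 2 + ‖y‖ ^ 2 := by positivity
        apply mul_le_mul_of_nonneg_right _ h4
        have : 0 < T ^ 3 := by positivity
        linarith
    have h2 : (200 : ℝ) / T ^ 3 = 2 / (T ^ 3 / 100) := by
      have : T ^ 3 ≠ 0 := by positivity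
      field_simp
      norm_num
    rw [h2]
    exact h1

end Pool.Agent.H18.DR
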